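import Pool.Agent.Helper5.BD.GDefs
import Pool.Agent.Helper81.BD.GR1
import Pool.Agent.Helper9.BD.GR2

/-!
# Bounded degeneracy, module GR3: the way around a point in the wheel map
-/

noncomputable section

open Finset Helper5.CR Classical Equiv Equiv.Perm

namespace Helper5.BD

variable {V E : Type} [Fintype E] {src tgt : E → V}

/-- the points of a walk, read from the other side -/
theorem map_opp {D Y : Type} (f : D → Y) (α : Perm D) (y : Y) : ∀ (l : List D) (d : D) (x : Y),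
    IsWalk f α x y (d :: l) → (d :: l).map (fun b => f (α b)) = l.map f ++ [y]
  | [], d, x, h => by
    have h2 : f (α d) = y := h.2
    simp [h2]
  | e :: l, d, x, h => by
    have h2 : IsWalk f α (f (α d)) y (e :: l) := h.2
    have h3 : f e = f (α d) := h2.1
    rw [List.map_cons, map_opp f α y l e _ h2, List.map_cons, h3]
    rfl

/-- the points of the tail of the reversed walk -/
theorem tail_rev {D Y : Type} (f : D → Y) (α : Perm D) {x y : Y} {l : List D} (hl : l ≠ [])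
    (h : IsWalk f α x y l) : (M8.rev α l).tail.map f = (l.tail.map f).reverse := by
  obtain ⟨d, t, rfl⟩ := List.exists_cons_of_ne_nil hl
  have h1 := map_opp f α y t d x h
  have h2 : (M8.rev α (d :: t)).map f = ((d :: t).map (fun b => f (α b))).reverse := by
    unfold M8.rev
    rw [List.map_reverse, List.map_map]
    rfl
  rw [List.map_tail, h2, h1, List.reverse_append]
  rfl

theorem tail_append_of_ne {A : Type} {l m : List A} (h : l ≠ []) : (l ++ m).tail = l.tail ++ m := by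
  obtain ⟨a, t, rfl⟩ := List.exists_cons_of_ne_nil h
  rfl

theorem wa_wa {D : Type} {α : Perm D} (h : ∀ d, α (α d) = d) (a : D × Fin 5) : wa α (wa α a) = a := by
  obtain ⟨d, i⟩ := a
  fin_cases i <;> simp [wa, h]

theorem sg_alpha (P : PreDrawing src tgt) (e : E) (d : P.D) : sg P e (P.α d) = sg P e d := by
  unfold sg
  rw [P.α_invol]
  by_cases h : d ∈ P.route e ∨ P.α d ∈ P.route e
  · rw [if_pos h, if_pos (Or.comm.1 h)]
  · rw [if_neg h, if_neg (fun k => h (Or.comm.1 k))]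

/-- a segment is used by at most one edge -/
theorem sg_unique (P : PreDrawing src tgt) {e f : E} (hef : e ≠ f) (d : P.D) (h1 : sg P e d = 1)
    (h2 : sg P f d = 1) : False := by
  have k : ∀ g : E, sg P g d = 1 → 1 ≤ (P.route g).count d + (P.route g).count (P.α d) := by
    intro g hg
    unfold sg at hg
    have h : d ∈ P.route g ∨ P.α d ∈ P.route g := by
      by_contra hn
      rw [if_neg hn] at hg
      exact absurd hg (by norm_num)
    rcases h with h | h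
    · have := List.count_pos_iff.2 h
      omega
    · have := List.count_pos_iff.2 h
      omega
  have hu := P.route_use d
  have h3 : ∑ g ∈ ({e, f} : Finset E), ((P.route g).count d + (P.route g).count (P.α d)) ≤
      ∑ g, ((P.route g).count d + (P.route g).count (P.α d)) :=
    Finset.sum_le_sum_of_subset (Finset.subset_univ _)
  rw [Finset.sum_pair hef] at h3
  have := k e h1
  have := k f h2
  omega

/-- GR3, from the three parts -/
theorem around_of (P : PreDrawing src tgt) (σ' α' : Perm (P.D × Fin 5)) (hW : Wheel P.σ P.α P.pt σ' α')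
    (g₁ g₂ : E) (hg : g₁ ≠ g₂) (a u v : V) {δ₁ δ₂ : P.D} {l₁ l₂ r : List (P.D × Fin 5)}
    (p1 : P.pt δ₁ = P.loc a)
    (w1 : IsWalk (wpt P.σ P.pt) α' (Sum.inr δ₁) (Sum.inl (P.loc u)) l₁) (n1 : l₁ ≠ []) (d1 : l₁.Nodup)
    (s1 : ∀ b ∈ l₁, (b.2 = 0 ∨ b.2 = 2 ∨ b.2 = 4) ∧ sg P g₁ b.1 = 1)
    (e1 : ∀ b ∈ l₁, wpt P.σ P.pt b ≠ wpt P.σ P.pt (α' b))
    (x1 : ∀ x, (l₁.map (wpt P.σ P.pt)).count (Sum.inl x) ≤ (ipts P g₁).count x)
    (y1 : ∀ d, (l₁.map (wpt P.σ P.pt)).count (Sum.inr d) ≤ sg P g₁ d)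
    (w2 : IsWalk (wpt P.σ P.pt) α' (Sum.inr δ₂) (Sum.inl (P.loc v)) l₂) (d2 : l₂.Nodup)
    (s2 : ∀ b ∈ l₂, (b.2 = 0 ∨ b.2 = 2 ∨ b.2 = 4) ∧ sg P g₂ b.1 = 1)
    (e2 : ∀ b ∈ l₂, wpt P.σ P.pt b ≠ wpt P.σ P.pt (α' b))
    (x2 : ∀ x, (l₂.map (wpt P.σ P.pt)).count (Sum.inl x) ≤ (ipts P g₂).count x)
    (y2 : ∀ d, (l₂.map (wpt P.σ P.pt)).count (Sum.inr d) ≤ sg P g₂ d)
    (w3 : IsWalk (wpt P.σ P.pt) α' (Sum.inr δ₁) (Sum.inr δ₂) r) (d3 : r.Nodup)
    (s3 : ∀ b ∈ r, b.2 = 1 ∧ P.pt b.1 = P.pt δ₁) (e3 : ∀ b ∈ r, wpt P.σ P.pt b ≠ wpt P.σ P.pt (α' b))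
    (x3 : ∀ x, (r.map (wpt P.σ P.pt)).count (Sum.inl x) = 0)
    (y3 : ∀ d, (r.map (wpt P.σ P.pt)).count (Sum.inr d) ≤ if P.pt d = P.pt δ₁ then 1 else 0) :
    ∃ l : List (P.D × Fin 5),
      IsWalk (wpt P.σ P.pt) α' (Sum.inl (P.loc u)) (Sum.inl (P.loc v)) l ∧
      l.Nodup ∧ (∀ a ∈ l, wpt P.σ P.pt a ≠ wpt P.σ P.pt (α' a)) ∧
      (∀ x, (l.tail.map (wpt P.σ P.pt)).count (Sum.inl x) ≤
        (ipts P g₁).count x + (ipts P g₂).count x) ∧
      ∀ d, (l.tail.map (wpt P.σ P.pt)).count (Sum.inr d) ≤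
        sg P g₁ d + sg P g₂ d + if P.pt d = P.loc a then 1 else 0 := by
  have hinv : ∀ b, α' (α' b) = b := fun b => by
    rw [hW.opp, hW.opp, wa_wa P.α_invol]
  have hrne : M8.rev α' l₁ ≠ [] := M8.rev_ne_nil n1
  -- members of the reversed list
  have hmem : ∀ b ∈ M8.rev α' l₁, (b.2 = 0 ∨ b.2 = 2 ∨ b.2 = 4) ∧ sg P g₁ b.1 = 1 ∧
      wpt P.σ P.pt b ≠ wpt P.σ P.pt (α' b) := by
    intro b hb
    unfold M8.rev at hb
    rw [List.mem_reverse, List.mem_map] at hb
    obtain ⟨c, hc, rfl⟩ := hb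
    obtain ⟨hc1, hc2⟩ := s1 c hc
    refine ⟨?_, ?_, ?_⟩
    · rw [hW.opp]
      obtain ⟨d, i⟩ := c
      rcases hc1 with h | h | h <;> (simp only at h; subst h; simp [wa])
    · rw [hW.opp]
      obtain ⟨d, i⟩ := c
      rcases hc1 with h | h | h <;> (simp only at h; subst h; simp only [wa])
      · simpa [sg_alpha] using hc2
      · simpa using hc2
      · simpa using hc2
    · rw [hinv]
      exact (e1 c hc).symm
  have hrnd : (M8.rev α' l₁).Nodup := by
    unfold M8.rev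
    rw [List.nodup_reverse]
    exact d1.map α'.injective
  have htail : (M8.rev α' l₁ ++ (r ++ l₂)).tail.map (wpt P.σ P.pt) =
      (l₁.tail.map (wpt P.σ P.pt)).reverse ++ (r.map (wpt P.σ P.pt) ++ l₂.map (wpt P.σ P.pt)) := by
    rw [tail_append_of_ne hrne, List.map_append, List.map_append, tail_rev _ _ n1 w1]
  have hcnt : ∀ z, (l₁.tail.map (wpt P.σ P.pt)).count z ≤ (l₁.map (wpt P.σ P.pt)).count z := by
    intro z
    exact ((List.tail_sublist l₁).map _).count_le z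
  refine ⟨M8.rev α' l₁ ++ (r ++ l₂), ?_, ?_, ?_, ?_, ?_⟩
  · exact M8.isWalk_append.2 ⟨_, M8.isWalk_rev hinv w1, M8.isWalk_append.2 ⟨_, w3, w2⟩⟩
  · rw [List.nodup_append, List.nodup_append]
    refine ⟨hrnd, ⟨d3, d2, ?_⟩, ?_⟩
    · intro b hb c hc hbc
      subst hbc
      have h1 := (s3 b hb).1
      have h2 := (s2 b hc).1
      rw [h1] at h2
      rcases h2 with h | h | h <;> exact absurd h (by decide)
    · intro b hb c hc hbc
      subst hbc
      rcases List.mem_append.1 hc with hc | hc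
      · have h1 := (s3 b hc).1
        have h2 := (hmem b hb).1
        rw [h1] at h2
        rcases h2 with h | h | h <;> exact absurd h (by decide)
      · exact sg_unique P hg b.1 (hmem b hb).2.1 (s2 b hc).2
  · intro b hb
    rcases List.mem_append.1 hb with hb | hb
    · exact (hmem b hb).2.2
    · rcases List.mem_append.1 hb with hb | hb
      · exact e3 b hb
      · exact e2 b hb
  · intro x
    rw [htail, List.count_append, List.count_append, List.count_reverse, x3]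
    have := hcnt (Sum.inl x)
    have := x1 x
    have := x2 x
    omega
  · intro d
    rw [htail, List.count_append, List.count_append, List.count_reverse]
    have := hcnt (Sum.inr d)
    have := y1 d
    have := y2 d
    have h3 := y3 d
    rw [p1] at h3
    omega

/-- GR3 (way around). -/
theorem wheel_around (P : PreDrawing src tgt) (hne : ∀ e, src e ≠ tgt e)
    (σ' α' : Perm (P.D × Fin 5)) (hW : Wheel P.σ P.α P.pt σ' α') (g₁ g₂ : E) (hg : g₁ ≠ g₂)
    (a u v : V) (h1 : (src g₁ = a ∧ tgt g₁ = u) ∨ (src g₁ = u ∧ tgt g₁ = a))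
    (h2 : (src g₂ = a ∧ tgt g₂ = v) ∨ (src g₂ = v ∧ tgt g₂ = a)) :
    ∃ l : List (P.D × Fin 5),
      IsWalk (wpt P.σ P.pt) α' (Sum.inl (P.loc u)) (Sum.inl (P.loc v)) l ∧
      l.Nodup ∧ (∀ a ∈ l, wpt P.σ P.pt a ≠ wpt P.σ P.pt (α' a)) ∧
      (∀ x, (l.tail.map (wpt P.σ P.pt)).count (Sum.inl x) ≤
        (ipts P g₁).count x + (ipts P g₂).count x) ∧
      ∀ d, (l.tail.map (wpt P.σ P.pt)).count (Sum.inr d) ≤
        sg P g₁ d + sg P g₂ d + if P.pt d = P.loc a then 1 else 0 := by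
  obtain ⟨δ₁, l₁, p1, w1, n1, d1, s1, e1, x1, y1⟩ := wheel_half P hne σ' α' hW g₁ a u h1
  obtain ⟨δ₂, l₂, p2, w2, n2, d2, s2, e2, x2, y2⟩ := wheel_half P hne σ' α' hW g₂ a v h2
  obtain ⟨r, w3, d3, s3, e3, x3, y3⟩ := wheel_ring P.pt_iff σ' α' hW δ₁ δ₂ (p1.trans p2.symm)
  exact around_of P σ' α' hW g₁ g₂ hg a u v p1 w1 n1 d1 s1 e1 x1 y1 w2 d2 s2 e2 x2 y2 w3 d3 s3 e3 x3 y3

end Helper5.BD
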