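import Pool.Agent.Helper5.BD.Defs
import Pool.Agent.Helper27.SG.Perturb

/-!
# Bounded degeneracy, module C2: first order flatness for a set of arcs
-/

noncomputable section

open Finset Helper5.CR Classical

namespace Helper5.BD

set_option linter.unusedSimpArgs false
set_option linter.unusedSectionVars false

variable {V E X : Type} [Fintype V] [Fintype E] [Fintype X] {C : CSys V E X} {d : ℕ}

/-- the indicator of an arc -/
def dl (O : Ori C d) (e : E) (u v : V) : ℝ := if O.lo e = u ∧ O.hi e = v then 1 else 0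

theorem ind8 {a b c e u v : V} (hab : a ≠ b) (hce : c ≠ e) (hac : a ≠ c) (hae : a ≠ e) (hbc : b ≠ c) (hbe : b ≠ e) :
    ((if u = a ∧ v = c then (1 : ℝ) else 0) + (if u = c ∧ v = a then 1 else 0)) +
    ((if u = a ∧ v = e then 1 else 0) + (if u = e ∧ v = a then 1 else 0)) +
    ((if u = b ∧ v = c then 1 else 0) + (if u = c ∧ v = b then 1 else 0)) +
    ((if u = b ∧ v = e then 1 else 0) + (if u = e ∧ v = b then 1 else 0)) =
    if ((u = a ∨ u = b) ∧ (v = c ∨ v = e)) ∨ ((v = a ∨ v = b) ∧ (u = c ∨ u = e)) then 1 else 0 := by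
  by_cases h1 : u = a
  · subst h1
    by_cases h2 : v = c
    · subst h2
      simp [hab, hce, hac, hae, hbc, hbe, hab.symm, hce.symm, hac.symm, hae.symm, hbc.symm, hbe.symm]
    · by_cases h3 : v = e
      · subst h3
        simp [hab, hce, hac, hae, hbc, hbe, hab.symm, hce.symm, hac.symm, hae.symm, hbc.symm, hbe.symm]
      · simp [hab, hac, hae, h2, h3]
  · by_cases h2 : u = b
    · subst h2
      by_cases h2 : v = c
      · subst h2
        simp [hab, hce, hac, hae, hbc, hbe, hab.symm, hce.symm, hac.symm, hae.symm, hbc.symm, hbe.symm]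
      · by_cases h3 : v = e
        · subst h3
          simp [hab, hce, hac, hae, hbc, hbe, hab.symm, hce.symm, hac.symm, hae.symm, hbc.symm, hbe.symm]
        · simp [hab.symm, hbc, hbe, h2, h3]
    · by_cases h3 : u = c
      · subst h3
        by_cases h4 : v = a
        · subst h4
          simp [hab, hce, hac, hae, hbc, hbe, hab.symm, hce.symm, hac.symm, hae.symm, hbc.symm, hbe.symm]
        · by_cases h5 : v = b
          · subst h5
            simp [hab, hce, hac, hae, hbc, hbe, hab.symm, hce.symm, hac.symm, hae.symm, hbc.symm, hbe.symm]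
          · simp [h1, h2, hce, h4, h5]
      · by_cases h4 : u = e
        · subst h4
          by_cases h4 : v = a
          · subst h4
            simp [hab, hce, hac, hae, hbc, hbe, hab.symm, hce.symm, hac.symm, hae.symm, hbc.symm, hbe.symm]
          · by_cases h5 : v = b
            · subst h5
              simp [hab, hce, hac, hae, hbc, hbe, hab.symm, hce.symm, hac.symm, hae.symm, hbc.symm, hbe.symm]
            · simp [h1, h2, h3, h4, h5]
        · simp [h1, h2, h3, h4]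

/-- `gv` of the indicator of an arc -/
theorem gv_dl (O : Ori C d) (e : E) (x : X) : Helper27.SG.gv C (dl O e) x =
    ((if C.e₁ x = e then 1 else 0) + (if C.e₂ x = e then 1 else 0)) - (if O.jn x e then 1 else 0) := by
  have h1 := C.h1 x
  have h2 := C.h2 x
  have h3 := C.h3 x
  have h4 := C.h4 x
  have l1 := C.loop (C.e₁ x)
  have l2 := C.loop (C.e₂ x)
  have g : ∀ p : E, (if O.lo e = O.lo p ∧ O.hi e = O.hi p then (1 : ℝ) else 0) = if p = e then 1 else 0 := by
    intro p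
    by_cases h : p = e
    · subst h; simp
    · rw [if_neg h, if_neg (fun k => h (O.uniq p e k.1.symm k.2.symm))]
  have g' : ∀ p : E, (if O.lo e = O.hi p ∧ O.hi e = O.lo p then (1 : ℝ) else 0) = 0 := by
    intro p
    rw [if_neg (fun k => O.anti e p k.1 k.2)]
  have cpi : O.jn x e ↔
      ((O.lo e = C.src (C.e₁ x) ∨ O.lo e = C.tgt (C.e₁ x)) ∧ (O.hi e = C.src (C.e₂ x) ∨ O.hi e = C.tgt (C.e₂ x))) ∨
      ((O.hi e = C.src (C.e₁ x) ∨ O.hi e = C.tgt (C.e₁ x)) ∧ (O.lo e = C.src (C.e₂ x) ∨ O.lo e = C.tgt (C.e₂ x))) := by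
    unfold Ori.jn Ori.cp
    rcases O.ends (C.e₁ x) with ⟨s1, t1⟩ | ⟨s1, t1⟩ <;> rcases O.ends (C.e₂ x) with ⟨s2, t2⟩ | ⟨s2, t2⟩
    · rw [s1, t1, s2, t2]
    · rw [s1, t1, s2, t2]
      tauto
    · rw [s1, t1, s2, t2]
      tauto
    · rw [s1, t1, s2, t2]
      tauto
  have cpe : (if O.jn x e then (1 : ℝ) else 0) =
      if ((O.lo e = C.src (C.e₁ x) ∨ O.lo e = C.tgt (C.e₁ x)) ∧ (O.hi e = C.src (C.e₂ x) ∨ O.hi e = C.tgt (C.e₂ x))) ∨
      ((O.hi e = C.src (C.e₁ x) ∨ O.hi e = C.tgt (C.e₁ x)) ∧ (O.lo e = C.src (C.e₂ x) ∨ O.lo e = C.tgt (C.e₂ x)))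
      then 1 else 0 := by
    by_cases h : O.jn x e
    · rw [if_pos h, if_pos (cpi.1 h)]
    · rw [if_neg h, if_neg (fun k => h (cpi.2 k))]
  have i8 := ind8 (u := O.lo e) (v := O.hi e) l1 l2 h1 h2 h3 h4
  have e1 : ((if O.lo e = C.src (C.e₁ x) ∧ O.hi e = C.tgt (C.e₁ x) then (1 : ℝ) else 0) +
      (if O.lo e = C.tgt (C.e₁ x) ∧ O.hi e = C.src (C.e₁ x) then 1 else 0)) = if C.e₁ x = e then 1 else 0 := by
    rcases O.ends (C.e₁ x) with ⟨s1, t1⟩ | ⟨s1, t1⟩
    · rw [s1, t1, g, g', add_zero]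
    · rw [s1, t1, g, g', zero_add]
  have e2 : ((if O.lo e = C.src (C.e₂ x) ∧ O.hi e = C.tgt (C.e₂ x) then (1 : ℝ) else 0) +
      (if O.lo e = C.tgt (C.e₂ x) ∧ O.hi e = C.src (C.e₂ x) then 1 else 0)) = if C.e₂ x = e then 1 else 0 := by
    rcases O.ends (C.e₂ x) with ⟨s1, t1⟩ | ⟨s1, t1⟩
    · rw [s1, t1, g, g', add_zero]
    · rw [s1, t1, g, g', zero_add]
  rw [cpe, ← i8, ← e1, ← e2]
  unfold Helper27.SG.gv dl
  ring

theorem gv_sum (O : Ori C d) (A : Finset E) (x : X) :
    Helper27.SG.gv C (fun u v => ∑ e ∈ A, dl O e u v) x = ∑ e ∈ A, Helper27.SG.gv C (dl O e) x := by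
  unfold Helper27.SG.gv
  simp only [Finset.sum_add_distrib, Finset.sum_sub_distrib]

theorem gv_neg (s : V → V → ℝ) (x : X) :
    Helper27.SG.gv C (fun u v => -s u v) x = -Helper27.SG.gv C s x := by
  unfold Helper27.SG.gv
  ring

theorem k_real (C : CSys V E X) (e : E) :
    (C.k e : ℝ) = ∑ x, ((if C.e₁ x = e then (1 : ℝ) else 0) + (if C.e₂ x = e then 1 else 0)) := by
  have h := C.sum_k {e}
  rw [Finset.sum_singleton] at h
  rw [h]
  push_cast
  refine Finset.sum_congr rfl fun x _ => ?_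
  simp

/-- C2.  First order flatness for a set of arcs. -/
theorem flat_f2 (O : Ori C d) (t : ℝ)
    (hgv : ∀ (s : V → V → ℝ) (D : ℝ), 0 ≤ D → (∀ v, ∑ j, |s v j| ≤ D) →
      ∑ x, Helper27.SG.gv C s x ≤ 64 * t * D * Fintype.card X)
    (A : Finset E) :
    |(∑ e ∈ A, (C.k e : ℝ)) - ∑ e ∈ A, (O.cj e : ℝ)| ≤ 64 * t * d * Fintype.card X := by
  set s : V → V → ℝ := fun u v => ∑ e ∈ A, dl O e u v with hs
  have hd : ∀ e u v, 0 ≤ dl O e u v := by
    intro e u v
    unfold dl
    split_ifs <;> norm_num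
  have hs0 : ∀ u v, 0 ≤ s u v := fun u v => Finset.sum_nonneg fun e _ => hd e u v
  have hrow : ∀ u, ∑ v, |s u v| ≤ (d : ℝ) := by
    intro u
    rw [Finset.sum_congr rfl fun v _ => abs_of_nonneg (hs0 u v)]
    rw [hs, Finset.sum_comm]
    have h1 : ∀ e, ∑ v, dl O e u v = if O.lo e = u then 1 else 0 := by
      intro e
      unfold dl
      by_cases h : O.lo e = u
      · simp [h]
      · simp [h]
    rw [Finset.sum_congr rfl fun e _ => h1 e]
    have h2 : ∑ e ∈ A, (if O.lo e = u then (1 : ℝ) else 0) ≤ ∑ e, (if O.lo e = u then (1 : ℝ) else 0) :=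
      Finset.sum_le_sum_of_subset_of_nonneg (Finset.subset_univ _) (fun e _ _ => by split_ifs <;> norm_num)
    refine h2.trans ?_
    rw [Finset.sum_boole]
    exact_mod_cast O.out u
  have hsum : ∑ x, Helper27.SG.gv C s x = (∑ e ∈ A, (C.k e : ℝ)) - ∑ e ∈ A, (O.cj e : ℝ) := by
    rw [← Finset.sum_sub_distrib]
    have h1 : ∀ x, Helper27.SG.gv C s x = ∑ e ∈ A, Helper27.SG.gv C (dl O e) x := fun x => gv_sum O A x
    rw [Finset.sum_congr rfl fun x _ => h1 x, Finset.sum_comm]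
    refine Finset.sum_congr rfl fun e _ => ?_
    rw [Finset.sum_congr rfl fun x _ => gv_dl O e x, Finset.sum_sub_distrib, k_real]
    congr 1
    unfold Ori.cj
    rw [Finset.sum_boole]
  have p1 := hgv s d (Nat.cast_nonneg d) hrow
  have p2 := hgv (fun u v => -s u v) d (Nat.cast_nonneg d) (by
    intro v
    simp only [abs_neg]
    exact hrow v)
  rw [Finset.sum_congr rfl fun x _ => gv_neg s x, Finset.sum_neg_distrib, hsum] at p2
  rw [hsum] at p1
  rw [abs_le]
  constructor <;> linarith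

end Helper5.BD
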