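import Pool.Agent.Helper5.BD.GDefs
import Pool.Agent.Helper5.DCD.P2

/-!
# Bounded degeneracy, module GA2: restriction of a planar map to a union of components
-/

noncomputable section

open Finset Helper5.CR Classical Equiv Equiv.Perm

namespace Helper5.BD

/-- GA2 (restriction to a union of components). -/
theorem planar_subtype {D : Type} [Fintype D] {σ α : Perm D} (hp : Planar σ α) (U : D → Prop)
    (hσ : ∀ d, U (σ d) ↔ U d) (hα : ∀ d, U (α d) ↔ U d) :
    ∃ σ' α' : Perm {d : D // U d}, Planar σ' α' ∧ (∀ d, (σ' d).1 = σ d.1) ∧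
      ∀ d, (α' d).1 = α d.1 := by
  have hσ' : ∀ d, ¬ U (σ d) ↔ ¬ U d := fun d => not_congr (hσ d)
  have hα' : ∀ d, ¬ U (α d) ↔ ¬ U d := fun d => not_congr (hα d)
  set σA : Perm {d : D // U d} := σ.subtypePerm hσ with hσA
  set αA : Perm {d : D // U d} := α.subtypePerm hα with hαA
  set σB : Perm {d : D // ¬ U d} := σ.subtypePerm hσ' with hσB
  set αB : Perm {d : D // ¬ U d} := α.subtypePerm hα' with hαB
  refine ⟨σA, αA, ?_, fun d => rfl, fun d => rfl⟩
  set e : {d : D // U d} ⊕ {d : D // ¬ U d} ≃ D := Equiv.sumCompl U with he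
  have eσ : e.permCongr (Equiv.sumCongr σA σB) = σ := by
    ext d
    obtain ⟨x, rfl⟩ := e.surjective d
    rw [Equiv.permCongr_apply, Equiv.symm_apply_apply]
    rcases x with x | x <;> rfl
  have eα : e.permCongr (Equiv.sumCongr αA αB) = α := by
    ext d
    obtain ⟨x, rfl⟩ := e.surjective d
    rw [Equiv.permCongr_apply, Equiv.symm_apply_apply]
    rcases x with x | x <;> rfl
  have eφ : e.permCongr (Equiv.sumCongr (σA * αA) (σB * αB)) = σ * α := by
    ext d
    obtain ⟨x, rfl⟩ := e.surjective d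
    rw [Equiv.permCongr_apply, Equiv.symm_apply_apply]
    rcases x with x | x <;> rfl
  have c1 : nc σ = nc σA + nc σB := by
    rw [← nc_sumCongr, ← Helper5.DCD.nc_permCongr e, eσ]
  have c2 : nc α = nc αA + nc αB := by
    rw [← nc_sumCongr, ← Helper5.DCD.nc_permCongr e, eα]
  have c3 : nc (σ * α) = nc (σA * αA) + nc (σB * αB) := by
    rw [← nc_sumCongr, ← Helper5.DCD.nc_permCongr e, eφ]
  have c4 : ncomp σ α = ncomp σA αA + ncomp σB αB := by
    have h : ncomp (e.permCongr (Equiv.sumCongr σA σB)) (e.permCongr (Equiv.sumCongr αA αB)) =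
        ncomp (Equiv.sumCongr σA σB) (Equiv.sumCongr αA αB) := Helper5.DCD.ncomp_permCongr e _ _
    rw [eσ, eα] at h
    rw [h]
    unfold ncomp
    rw [comp_sumCongr, card_sumSetoid]
  have c5 : Nat.card D = Nat.card {d : D // U d} + Nat.card {d : D // ¬ U d} := by
    rw [← Nat.card_sum, Nat.card_congr e]
  have eB := euler_le σB αB
  have eA := euler_le σA αA
  unfold Planar at hp ⊢
  rw [c1, c2, c3, c4, c5] at hp
  omega

end Helper5.BD
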